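import Pool.Agent.R884.AffB.Main

set_option autoImplicit false

/-!
# Affine Baire-one maps into the unit ball of a normed space with the approximation property

Let `E` be a real or complex normed space with the approximation property (in particular any
Banach space with the bounded approximation property). Then for every compact convex set `X` in a
Hausdorff locally convex space, every affine map `f ∈ C₁(X, B_E)` belongs to `A₁(X, B_E)`: it is
the pointwise limit of a sequence of continuous affine maps with values in the unit ball itself.

The definitions `IsAffine`, `HasAP`, `IsBaireOne`, `IsAffineOne` are in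
`Pool.Agent.R884.AffB.Formula`, `Core` and `Main`.
-/

namespace Pool.Agent.Results.MP_8da836_an.UnitBall

open Pool.Agent.R884.AffB

/-- **Main theorem.** If `E` has the approximation property, every affine `f ∈ C₁(X,B_E)` belongs
to `A₁(X,B_E)`. -/
theorem result {𝕜 : Type*} [RCLike 𝕜] {E : Type*} [NormedAddCommGroup E] [NormedSpace 𝕜 E]
    [NormedSpace ℝ E] [IsScalarTower ℝ 𝕜 E] (hE : HasAP 𝕜 E)
    {V : Type*} [AddCommGroup V] [Module ℝ V] [TopologicalSpace V] [IsTopologicalAddGroup V]
    [ContinuousSMul ℝ V] [LocallyConvexSpace ℝ V] [T2Space V]
    (X : Set V) (hX : IsCompact X) (hc : Convex ℝ X) (f : X → E) (hf : IsAffine X f)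
    (h1 : IsBaireOne X {y : E | ‖y‖ ≤ 1} f) : IsAffineOne X {y : E | ‖y‖ ≤ 1} f :=
  main_ball hE X hX hc f hf h1

end Pool.Agent.Results.MP_8da836_an.UnitBall
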